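import Mathlib

/-!
The point pair function of the complement of a line in three-dimensional Euclidean space
is a metric.
-/

namespace Pool.Agent.Results.MP_a15e14_gt.PointPairMetric

/-- Three-dimensional Euclidean space. -/
abbrev E3 : Type := EuclideanSpace ℝ (Fin 3)

/-- The `z`-axis. -/
def Z : Set E3 := {x | x 0 = 0 ∧ x 1 = 0}

/-- The complement of the `z`-axis. -/
def G : Set E3 := Zᶜ

/-- Euclidean distance to the `z`-axis, which is the boundary of `G`. -/
noncomputable def dG (x : E3) : ℝ := Metric.infDist x Z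

/-- The point pair function of `G`. -/
noncomputable def pG (x y : E3) : ℝ :=
  dist x y / Real.sqrt (dist x y ^ 2 + 4 * dG x * dG y)

lemma dG_eq (x : E3) : dG x = Real.sqrt (x 0 ^ 2 + x 1 ^ 2) := by
  unfold dG
  have hne : (Z : Set E3).Nonempty := ⟨0, by simp [Z]⟩
  apply le_antisymm
  · have hz : (!₂[0, 0, x 2] : E3) ∈ Z := by simp [Z]
    refine (Metric.infDist_le_dist_of_mem hz).trans ?_
    rw [EuclideanSpace.dist_eq]
    apply Real.sqrt_le_sqrt
    simp [Fin.sum_univ_three, Real.dist_eq, sq_abs]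
  · rw [Metric.le_infDist hne]
    intro z hz
    rw [EuclideanSpace.dist_eq]
    apply Real.sqrt_le_sqrt
    obtain ⟨h0, h1⟩ := hz
    simp only [Fin.sum_univ_three, Real.dist_eq, sq_abs, h0, h1]
    nlinarith [sq_nonneg (x 2 - z 2)]

/-- rotation by `π` about the `z`-axis -/
noncomputable def rfl' (x : E3) : E3 := !₂[- x 0, - x 1, x 2]

lemma dist_rfl (x : E3) : dist x (rfl' x) = 2 * dG x := by
  rw [dG_eq, EuclideanSpace.dist_eq]
  rw [show (2:ℝ) = Real.sqrt 4 from by
    rw [show (4:ℝ) = 2 ^ 2 by norm_num]; exact (Real.sqrt_sq (by norm_num)).symm]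
  rw [← Real.sqrt_mul (by norm_num)]
  congr 1
  simp [Fin.sum_univ_three, Real.dist_eq, sq_abs, rfl']
  ring

lemma dist_rfl_le (x y : E3) :
    dist x (rfl' y) ≤ Real.sqrt (dist x y ^ 2 + 4 * dG x * dG y) := by
  rw [EuclideanSpace.dist_eq]
  apply Real.sqrt_le_sqrt
  rw [EuclideanSpace.dist_eq, Real.sq_sqrt (by positivity), dG_eq, dG_eq]
  have h : x 0 * y 0 + x 1 * y 1 ≤
      Real.sqrt (x 0 ^ 2 + x 1 ^ 2) * Real.sqrt (y 0 ^ 2 + y 1 ^ 2) := by
    rw [← Real.sqrt_mul (by positivity)]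
    apply Real.le_sqrt_of_sq_le
    nlinarith [sq_nonneg (x 0 * y 1 - x 1 * y 0)]
  simp [Fin.sum_univ_three, Real.dist_eq, sq_abs, rfl']
  nlinarith [h]

lemma dG_pos {x : E3} (hx : x ∈ G) : 0 < dG x := by
  rw [dG_eq]
  apply Real.sqrt_pos.mpr
  by_contra hcon
  push Not at hcon
  apply hx
  constructor
  · nlinarith [sq_nonneg (x 0), sq_nonneg (x 1)]
  · nlinarith [sq_nonneg (x 0), sq_nonneg (x 1)]

lemma key (x y z : E3) :
    dist x y * (2 * dG z) ≤
      dist x z * Real.sqrt (dist z y ^ 2 + 4 * dG z * dG y) +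
      dist z y * Real.sqrt (dist x z ^ 2 + 4 * dG x * dG z) := by
  have h := EuclideanGeometry.mul_dist_le_mul_dist_add_mul_dist x z y (rfl' z)
  rw [dist_rfl] at h
  have h1 := dist_rfl_le x z
  have h2 := dist_rfl_le y z
  rw [dist_comm y z] at h2
  have h3 : 4 * dG y * dG z = 4 * dG z * dG y := by ring
  rw [h3] at h2
  calc dist x y * (2 * dG z) ≤ dist x z * dist y (rfl' z) + dist z y * dist x (rfl' z) := h
    _ ≤ _ := by
      apply add_le_add
      · exact mul_le_mul_of_nonneg_left h2 dist_nonneg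
      · exact mul_le_mul_of_nonneg_left h1 dist_nonneg

/-- The point pair function is a metric on the complement of a line in three-space. -/
theorem result :
    (∀ x ∈ G, ∀ y ∈ G, 0 ≤ pG x y) ∧
    (∀ x ∈ G, ∀ y ∈ G, pG x y = 0 ↔ x = y) ∧
    (∀ x ∈ G, ∀ y ∈ G, pG x y = pG y x) ∧
    (∀ x ∈ G, ∀ y ∈ G, ∀ z ∈ G, pG x y ≤ pG x z + pG z y) := by
  refine ⟨?_, ?_, ?_, ?_⟩
  · intro x _ y _
    unfold pG
    positivity
  · intro x hx y hy
    have hpos : 0 < Real.sqrt (dist x y ^ 2 + 4 * dG x * dG y) := by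
      apply Real.sqrt_pos.mpr
      have := dG_pos hx
      have := dG_pos hy
      positivity
    unfold pG
    rw [div_eq_zero_iff]
    constructor
    · rintro (h | h)
      · exact dist_eq_zero.mp h
      · exact absurd h hpos.ne'
    · rintro rfl
      left
      simp
  · intro x _ y _
    unfold pG
    rw [dist_comm x y]
    congr 2
    ring
  · intro x hx y hy z hz
    have hdx := dG_pos hx
    have hdy := dG_pos hy
    have hdz := dG_pos hz
    -- abbreviations
    set a := dist x z with ha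
    set b := dist z y with hb
    set c := dist x y with hc
    set P := Real.sqrt (a ^ 2 + 4 * dG x * dG z) with hP
    set Q := Real.sqrt (b ^ 2 + 4 * dG z * dG y) with hQ
    set R := Real.sqrt (c ^ 2 + 4 * dG x * dG y) with hR
    have ha0 : 0 ≤ a := dist_nonneg
    have hb0 : 0 ≤ b := dist_nonneg
    have hc0 : 0 ≤ c := dist_nonneg
    have hPpos : 0 < P := Real.sqrt_pos.mpr (by positivity)
    have hQpos : 0 < Q := Real.sqrt_pos.mpr (by positivity)
    have hRpos : 0 < R := Real.sqrt_pos.mpr (by positivity)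
    have hP2 : P ^ 2 = a ^ 2 + 4 * dG x * dG z := Real.sq_sqrt (by positivity)
    have hQ2 : Q ^ 2 = b ^ 2 + 4 * dG z * dG y := Real.sq_sqrt (by positivity)
    have hR2 : R ^ 2 = c ^ 2 + 4 * dG x * dG y := Real.sq_sqrt (by positivity)
    have hk : c * (2 * dG z) ≤ a * Q + b * P := key x y z
    have hgoal : c / R ≤ a / P + b / Q := by
      rw [div_add_div _ _ hPpos.ne' hQpos.ne', div_le_div_iff₀ hRpos (by positivity)]
      -- c * (P * Q) ≤ (a * Q + P * b) * R
      set S := a * Q + P * b with hS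
      have hS0 : 0 ≤ S := by positivity
      have hcS : c * (2 * dG z) ≤ S := by rw [hS]; linarith [mul_comm P b]
      -- it suffices to compare squares
      have hsq : (c * (P * Q)) ^ 2 ≤ (S * R) ^ 2 := by
        -- (S R)^2 = S^2 c^2 + 4 dx dy S^2
        have hPQ : (P * Q) ^ 2 ≤ S ^ 2 + (4 * dG x * dG y) * (2 * dG z) ^ 2
            + 0 := by
          have e1 : (P * Q) ^ 2 = P ^ 2 * Q ^ 2 := by ring
          have e2 : S ^ 2 = a ^ 2 * Q ^ 2 + 2 * (a * b) * (P * Q) + P ^ 2 * b ^ 2 := by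
            rw [hS]; ring
          have hab : a * b ≤ P * Q := by
            apply mul_le_mul _ _ hb0 hPpos.le
            · rw [hP]; apply Real.le_sqrt_of_sq_le; nlinarith [mul_pos hdx hdz]
            · rw [hQ]; apply Real.le_sqrt_of_sq_le; nlinarith [mul_pos hdz hdy]
          have hab0 : 0 ≤ a * b := mul_nonneg ha0 hb0
          rw [e1, e2, hP2, hQ2]
          nlinarith [mul_nonneg hab0 (sub_nonneg.mpr hab), mul_pos (mul_pos hdx hdz) (mul_pos hdz hdy),
            mul_nonneg hab0 (mul_pos hPpos hQpos).le, sq_nonneg (a*b)]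
        have e3 : (S * R) ^ 2 = S ^ 2 * c ^ 2 + S ^ 2 * (4 * dG x * dG y) := by
          rw [mul_pow, hR2]; ring
        have e4 : (c * (P * Q)) ^ 2 = c ^ 2 * (P * Q) ^ 2 := by ring
        have e5 : (c * (2 * dG z)) ^ 2 ≤ S ^ 2 := by
          apply pow_le_pow_left₀ (by positivity) hcS
        have e6 : 0 < 4 * dG x * dG y := by positivity
        rw [e3, e4]
        have e7 : c ^ 2 * (P * Q) ^ 2 ≤ c ^ 2 * (S ^ 2 + (4 * dG x * dG y) * (2 * dG z) ^ 2 + 0) :=
          mul_le_mul_of_nonneg_left hPQ (by positivity)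
        have e8 : (4 * dG x * dG y) * (c * (2 * dG z)) ^ 2 ≤ (4 * dG x * dG y) * S ^ 2 :=
          mul_le_mul_of_nonneg_left e5 e6.le
        have e9 : c ^ 2 * (S ^ 2 + (4 * dG x * dG y) * (2 * dG z) ^ 2 + 0) =
            S ^ 2 * c ^ 2 + (4 * dG x * dG y) * (c * (2 * dG z)) ^ 2 := by ring
        have e10 : S ^ 2 * (4 * dG x * dG y) = (4 * dG x * dG y) * S ^ 2 := by ring
        linarith [e7, e8, e9, e10]
      exact le_of_sq_le_sq hsq (by positivity)
    exact hgoal

end Pool.Agent.Results.MP_a15e14_gt.PointPairMetric
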